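import Pool.Agent.Lib.MP_99bfa4_al.IR.Main

/-!
Infinitely many stable spectra although G/H has no discrete series, for an irreducible symmetric
space with a compact quotient: the group manifold SO+(1,3), G the group of pairs of elements of
O+(1,3) with equal determinant, H the diagonal. The discontinuous group is the graph of a
homomorphism from a cocompact group of isometries of hyperbolic 3-space into O(3).
-/

open Matrix MeasureTheory Pool.Agent.Lib.MP_99bfa4_al Pool.Agent.Lib.MP_99bfa4_al.IR

namespace Pool.Agent.Results.MP_99bfa4_al.Irreducible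

universe u

theorem result :
    (ContinuousSMul G X ∧ MulAction.IsPretransitive G X ∧
      (∀ g : G, g • (1 : X) = 1 ↔ g.val.1 = g.val.2) ∧
      SMulInvariantMeasure G X mu ∧ IsFiniteMeasureOnCompacts mu ∧ mu ≠ 0) ∧
    ∃ Γ : Subgroup G, SS.Admissible X Γ ∧
      (∃ C : Set X, IsCompact C ∧ ∀ x : X, ∃ γ ∈ Γ, γ • x ∈ C) ∧
      InfStable mu (Subtype.val : Smooth → X → ℂ) Γ ∧ ¬ SS.DiscNonempty.{u} G mu :=
  let ⟨_, h⟩ := exists_poly
  ⟨⟨continuousSMulX, pretransitive, stabilizer_iff, invariantX, inferInstance, mu_ne_zero⟩,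
    Lat h.toGram 1, admissible h, cocompact h, infStable h, disc_empty⟩

end Pool.Agent.Results.MP_99bfa4_al.Irreducible
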