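import Pool.Agent.Lib.MP_99bfa4_al.SS.Main

/-!
Infinitely many stable spectra although G/H has no discrete series, for a semisimple symmetric
space: G = SL(2,R)^3, H = SO(2) x diagonal SL(2,R), G/H = (hyperbolic plane) x SL(2,R).
The discontinuous group is a lift of the (3,6,6) triangle group times an infinite cyclic group.
-/

open Matrix MeasureTheory Pool.Agent.Lib.MP_99bfa4_al.SS

namespace Pool.Agent.Results.MP_99bfa4_al.Semisimple

universe u

theorem result :
    (ContinuousSMul G X ∧ MulAction.IsPretransitive G X ∧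
      (∀ g : G, g • ((UpperHalfPlane.I, 1) : X) = (UpperHalfPlane.I, 1) ↔
        g.1.valᵀ * g.1.val = 1 ∧ g.2.1 = g.2.2) ∧
      SMulInvariantMeasure G X mu ∧ IsFiniteMeasureOnCompacts mu ∧ mu ≠ 0) ∧
    ∃ Γ : Subgroup G, Admissible X Γ ∧ InfStable mu (Subtype.val : Smooth → X → ℂ) Γ ∧
      ¬ DiscNonempty.{u} G mu :=
  ⟨⟨continuousSMulX, pretransitive, stabilizer_iff, invariantX, finiteX, mu_ne_zero⟩,
    Lat 1 0, admissible, infStable, disc_empty⟩

end Pool.Agent.Results.MP_99bfa4_al.Semisimple
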