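import Pool.Agent.Lib.MP_99bfa4_al.SL2Ops
import Pool.Agent.Lib.MP_99bfa4_al.SL2Disc

/-!
Discrete series but at most one stable spectrum: G = SL(2, R), H trivial, G/H = G with the left
action and a Haar measure, Γ infinite cyclic hyperbolic.
-/

open MeasureTheory Pool.Agent.Lib.MP_99bfa4_al

namespace Pool.Agent.Results.MP_99bfa4_al.SimpleGroup

theorem result :
    ∃ (_ : MeasurableSpace (Matrix.SpecialLinearGroup (Fin 2) ℝ))
      (_ : BorelSpace (Matrix.SpecialLinearGroup (Fin 2) ℝ))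
      (μ : Measure (Matrix.SpecialLinearGroup (Fin 2) ℝ)), μ.IsHaarMeasure ∧
      ∃ Γ : Subgroup (Matrix.SpecialLinearGroup (Fin 2) ℝ),
        Gen.Admissible (Matrix.SpecialLinearGroup (Fin 2) ℝ) Γ ∧
        Gen.DiscNonempty (Matrix.SpecialLinearGroup (Fin 2) ℝ) μ ∧
        Gen.NonComm (Matrix.SpecialLinearGroup (Fin 2) ℝ)
          (Subtype.val : SL2.Smooth → Matrix.SpecialLinearGroup (Fin 2) ℝ → ℂ) ∧
        Gen.OneChar (Matrix.SpecialLinearGroup (Fin 2) ℝ)
          (Subtype.val : SL2.Smooth → Matrix.SpecialLinearGroup (Fin 2) ℝ → ℂ) ∧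
        ¬ Gen.InfStable μ
          (Subtype.val : SL2.Smooth → Matrix.SpecialLinearGroup (Fin 2) ℝ → ℂ) Γ := by
  let _ : MeasurableSpace (Matrix.SpecialLinearGroup (Fin 2) ℝ) := borel _
  have : BorelSpace (Matrix.SpecialLinearGroup (Fin 2) ℝ) := ⟨rfl⟩
  have := SL2.locallyCompact
  exact ⟨_, inferInstance, Measure.haar, inferInstance, _, SL2.admissible, SL2.discNonempty _,
    SL2.nonComm, SL2.oneChar,
    fun h => h (Set.Subsingleton.finite fun l _ l' _ => SL2.oneChar l l')⟩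

end Pool.Agent.Results.MP_99bfa4_al.SimpleGroup
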